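import Pool.Agent.Lib.MP_c95e9c_lc.OB.Main

/-!
# MP_c95e9c: exponentially many minimal forbidden induced subgraphs of interval probe graphs

`G` is an interval probe graph (no partition given) if for some independent set `N` of vertices edges between vertices of `N` can be added such that
the result is an interval graph. For every `n ≥ 31` there are `2 ^ ((n - 31) / 7)` pairwise non-isomorphic graphs with exactly `n` vertices which are not interval probe
graphs, but all of whose proper induced subgraphs are; all these graphs are bipartite and have maximum degree at most `4`.
-/

set_option autoImplicit false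

open Pool.Agent.Lib.MPc95e9c

theorem Pool.Agent.Results.MP_c95e9c_lc.ManyObstructions.result :
    ∀ n : ℕ, 31 ≤ n → ∃ F : (Fin ((n - 31) / 7) → Bool) → SimpleGraph (Fin n),
      (∀ f, MinObs (F f) ∧ (F f).Colorable 2 ∧ ∀ v, ((F f).neighborSet v).ncard ≤ 4) ∧
      ∀ f g, f ≠ g → IsEmpty (F f ≃g F g) := allFIN
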