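import Pool.Agent.Lib.MP_c95e9c_lc.CH.Main

/-!
# MP_c95e9c: exponentially many minimal forbidden induced subgraphs of interval probe graphs inside 2-trees

For every `R` there are `2 ^ (R / 2)` pairwise non-isomorphic graphs with exactly `4 R + 22` vertices which are induced subgraphs of 2-trees, are not
interval probe graphs (no partition given), but all of whose proper induced subgraphs are.
-/

set_option autoImplicit false

open Pool.Agent.Lib.MPc95e9c Pool.Agent.Lib.MPc95e9c.CH

theorem Pool.Agent.Results.MP_c95e9c_lc.TwoTreeObstructions.result :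
    ∀ R : ℕ, ∃ F : (Fin (R / 2) → Bool) → SimpleGraph (Fin (4 * R + 22)),
      (∀ f, MinObs (F f) ∧ ∃ (M : ℕ) (T : SimpleGraph (Fin M)), IsTwoTree T ∧ Nonempty (F f ↪g T)) ∧
      ∀ f g, f ≠ g → IsEmpty (F f ≃g F g) := allFI2
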